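import Pool.Agent.R592.Gp.Om

set_option autoImplicit false

/-!
Project OM (MP_c06a36_lc), piece OM-5: the fusion lemma. The pieces OM-1 (`LamCoord`,
`SlalomBound`) and OM-4 (`Approx`) are taken as hypotheses.
-/

namespace Pool.Agent.R577.OM

open Set Cardinal MeasureTheory Filter Pool.Agent.R592.Om

/-- statement `lam_coord` of OM-1 -/
def LamCoord : Prop := ∀ (i : ℕ × ℕ) (v : X i) {W : Set Om}, MeasurableSet W →
    (∀ x y : Om, (∀ j, j ≠ i → x j = y j) → (x ∈ W ↔ y ∈ W)) →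
    lam.real (W ∩ {x | x i = v}) = lam.real W / 4 ^ i.1

/-- statement `slalom_bound` of OM-1 -/
def SlalomBound : Prop := ∀ {K F : Set Om}, MeasurableSet K → MeasurableSet F → ∀ (n : ℕ)
    (v : Fin (4 ^ n)),
    (∀ x y : Om, (∀ j : ℕ × ℕ, j.1 ≠ n → x j = y j) → (x ∈ F ↔ y ∈ F)) →
    0 < lam.real F → 7 / 8 * lam.real F ≤ lam.real (K ∩ F) → ∀ (s : Finset ℕ),
    (∀ k ∈ s, lam.real (K ∩ F ∩ {x | x (n, k) = v}) ≤ lam.real F / 4 ^ n / 3) →
    s.card ≤ 4 ^ n

/-- statement `approx` of OM-4 -/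
def Approx : Prop := ∀ {A : Set Om}, IsClosed A → lam A ≠ 0 →
    ∃ (N : ℕ) (F : Set Om), MeasurableSet F ∧
      (∀ x y : Om, (∀ j : ℕ × ℕ, j.1 < N → j.2 < N → x j = y j) → (x ∈ F ↔ y ∈ F)) ∧
      A ⊆ F ∧ 7 / 8 * lam.real F ≤ lam.real A

theorem clopen_coord (i : ℕ × ℕ) (p : X i → Prop) : IsClopen {x : Om | p (x i)} :=
  (isClopen_discrete {v : X i | p v}).preimage (continuous_apply i)

theorem lam_eq (hL : LamCoord) (i : ℕ × ℕ) (v : X i) :
    lam.real {x : Om | x i = v} = 1 / 4 ^ i.1 := by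
  have h := hL i v (W := univ) MeasurableSet.univ (fun _ _ _ => by simp)
  rw [univ_inter, probReal_univ] at h
  exact h

theorem lam_lt (hL : LamCoord) (n k : ℕ) :
    lam.real {x : Om | (x (n, k)).1 < 2 ^ n} ≤ (1 / 2) ^ n := by
  classical
  set s : Finset (Fin (4 ^ n)) := Finset.univ.filter fun v => v.1 < 2 ^ n with hs
  have hc : s.card ≤ 2 ^ n := by
    have : s.card ≤ (Finset.range (2 ^ n)).card :=
      Finset.card_le_card_of_injOn (fun v => v.1)
        (fun v hv => by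
          have := (Finset.mem_filter.1 hv).2
          exact Finset.mem_coe.2 (Finset.mem_range.2 this))
        (fun a _ b _ h => Fin.ext h)
    rwa [Finset.card_range] at this
  have hsub : {x : Om | (x (n, k)).1 < 2 ^ n} ⊆ ⋃ v ∈ s, {x : Om | x (n, k) = v} := by
    intro x hx
    simp only [mem_iUnion]
    exact ⟨x (n, k), Finset.mem_filter.2 ⟨Finset.mem_univ _, hx⟩, rfl⟩
  calc lam.real {x : Om | (x (n, k)).1 < 2 ^ n}
      ≤ lam.real (⋃ v ∈ s, {x : Om | x (n, k) = v}) := measureReal_mono hsub (measure_ne_top _ _)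
    _ ≤ ∑ v ∈ s, lam.real {x : Om | x (n, k) = v} := measureReal_biUnion_finset_le _ _
    _ = ∑ v ∈ s, 1 / (4 : ℝ) ^ n := Finset.sum_congr rfl fun v _ => lam_eq hL (n, k) v
    _ = s.card * (1 / (4 : ℝ) ^ n) := by rw [Finset.sum_const, nsmul_eq_mul]
    _ ≤ 2 ^ n * (1 / (4 : ℝ) ^ n) := by
        refine mul_le_mul_of_nonneg_right ?_ (by positivity)
        exact_mod_cast hc
    _ = (1 / 2) ^ n := by
        have : (4 : ℝ) ^ n = 2 ^ n * 2 ^ n := by rw [← mul_pow]; norm_num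
        rw [this, div_pow, one_pow]
        field_simp

/-- the bad sets -/
def Bad (f : ℕ → ℕ) (S' : ℕ → Finset ℕ) (z : ℕ → ℕ) (n : ℕ) : Set Om :=
  {x | (x (n, f n)).1 < 2 ^ n ∧ (x (n, f n)).1 ≠ z n} ∪
    ⋃ k ∈ S' n, {x | (x (n, k)).1 < 2 ^ n}

theorem isOpen_Bad (f : ℕ → ℕ) (S' : ℕ → Finset ℕ) (z : ℕ → ℕ) (n : ℕ) :
    IsOpen (Bad f S' z n) := by
  refine IsOpen.union ?_ (isOpen_biUnion fun k _ => ?_)
  · exact (clopen_coord (n, f n) fun v => v.1 < 2 ^ n ∧ v.1 ≠ z n).isOpen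
  · exact (clopen_coord (n, k) fun v => v.1 < 2 ^ n).isOpen

theorem lam_Bad (hL : LamCoord) (f : ℕ → ℕ) (S' : ℕ → Finset ℕ) (z : ℕ → ℕ)
    (hS' : ∀ n, (S' n).card ≤ n) (n : ℕ) :
    lam.real (Bad f S' z n) ≤ ((n : ℝ) + 1) * (1 / 2) ^ n := by
  have h1 : lam.real {x : Om | (x (n, f n)).1 < 2 ^ n ∧ (x (n, f n)).1 ≠ z n} ≤ (1 / 2) ^ n :=
    (measureReal_mono fun x hx => hx.1).trans (lam_lt hL n (f n))
  have h2 : lam.real (⋃ k ∈ S' n, {x : Om | (x (n, k)).1 < 2 ^ n}) ≤ n * (1 / 2) ^ n := by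
    calc lam.real (⋃ k ∈ S' n, {x : Om | (x (n, k)).1 < 2 ^ n})
        ≤ ∑ k ∈ S' n, lam.real {x : Om | (x (n, k)).1 < 2 ^ n} :=
          measureReal_biUnion_finset_le _ _
      _ ≤ ∑ k ∈ S' n, (1 / 2 : ℝ) ^ n := Finset.sum_le_sum fun k _ => lam_lt hL n k
      _ = (S' n).card * (1 / 2 : ℝ) ^ n := by rw [Finset.sum_const, nsmul_eq_mul]
      _ ≤ n * (1 / 2 : ℝ) ^ n := by
          refine mul_le_mul_of_nonneg_right ?_ (by positivity)
          exact_mod_cast hS' n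
  have h3 := measureReal_union_le (μ := lam)
    {x : Om | (x (n, f n)).1 < 2 ^ n ∧ (x (n, f n)).1 ≠ z n}
    (⋃ k ∈ S' n, {x : Om | (x (n, k)).1 < 2 ^ n})
  have e : ((n : ℝ) + 1) * (1 / 2) ^ n = (1 / 2) ^ n + n * (1 / 2) ^ n := by ring
  rw [e]
  exact h3.trans (add_le_add h1 h2)

/-- the closed sets of the construction -/
def AT (K : Set Om) (f : ℕ → ℕ) (S' : ℕ → Finset ℕ) (z : ℕ → ℕ) (m0 : ℕ) (T : Finset ℕ) :
    Set Om :=
  {x | x ∈ K ∧ (∀ n, m0 ≤ n → x ∉ Bad f S' z n) ∧ ∀ t ∈ T, (x (t, f t)).1 = z t}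

theorem isClosed_AT {K : Set Om} (hK : IsClosed K) (f : ℕ → ℕ) (S' : ℕ → Finset ℕ)
    (z : ℕ → ℕ) (m0 : ℕ) (T : Finset ℕ) : IsClosed (AT K f S' z m0 T) := by
  have e : AT K f S' z m0 T = K ∩ ((⋂ n ∈ {n | m0 ≤ n}, (Bad f S' z n)ᶜ) ∩
      ⋂ t ∈ T, {x : Om | (x (t, f t)).1 = z t}) := by
    ext x
    simp [AT]
    tauto
  rw [e]
  refine hK.inter (IsClosed.inter ?_ ?_)
  · exact isClosed_biInter fun n _ => (isOpen_Bad f S' z n).isClosed_compl
  · exact isClosed_biInter fun t _ => (clopen_coord (t, f t) fun v => v.1 = z t).isClosed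

/-- patterns on finitely many coordinates -/
abbrev Y (N : ℕ) : Type := (j : {j : ℕ × ℕ // j.1 < N ∧ j.2 < N}) → X j.1

instance (N : ℕ) : Finite {j : ℕ × ℕ // j.1 < N ∧ j.2 < N} := by
  have h : Set.Finite {j : ℕ × ℕ | j.1 < N ∧ j.2 < N} :=
    ((Set.finite_Iio N).prod (Set.finite_Iio N)).subset fun j hj => ⟨hj.1, hj.2⟩
  exact h.to_subtype

/-- restriction to finitely many coordinates -/
def res (N : ℕ) (x : Om) : Y N := fun j => x j.1

/-- the set given by a code -/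
def FF (c : Σ N, Set (Y N)) : Set Om := res c.1 ⁻¹' c.2

theorem FF_code {N : ℕ} {F : Set Om}
    (hF : ∀ x y : Om, (∀ j : ℕ × ℕ, j.1 < N → j.2 < N → x j = y j) → (x ∈ F ↔ y ∈ F)) :
    FF ⟨N, res N '' F⟩ = F := by
  ext x
  constructor
  · rintro ⟨y, hy, hyx⟩
    refine (hF y x fun j h1 h2 => ?_).1 hy
    exact congrFun hyx ⟨j, h1, h2⟩
  · intro hx
    exact ⟨x, hx, rfl⟩

theorem FF_inv (c : Σ N, Set (Y N)) (x y : Om)
    (h : ∀ j : ℕ × ℕ, j.1 < c.1 → x j = y j) : x ∈ FF c ↔ y ∈ FF c := by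
  have : res c.1 x = res c.1 y := by
    funext j
    exact h j.1 j.2.1
  show res c.1 x ∈ c.2 ↔ res c.1 y ∈ c.2
  rw [this]

/-- admissible sets -/
def Adm (K F : Set Om) : Prop :=
  MeasurableSet F ∧ 0 < lam.real F ∧ 7 / 8 * lam.real F ≤ lam.real (K ∩ F)

/-- the main step -/
theorem step (hL : LamCoord) (hA : Approx) {K : Set Om} (hK : IsClosed K)
    (e : ℕ → Σ N, Set (Y N)) (he : Function.Surjective e) (S : ℕ → Finset ℕ)
    (hS : ∀ n k, k ∉ S n → ∀ j ≤ n, (e j).1 ≤ n → Adm K (FF (e j)) → ∀ v : Fin (4 ^ n),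
      lam.real (FF (e j)) / 4 ^ n / 3 < lam.real (K ∩ FF (e j) ∩ {x | x (n, k) = v}))
    (f : ℕ → ℕ) (S' : ℕ → Finset ℕ) (z : ℕ → ℕ) (hz : ∀ n, z n < 2 ^ n)
    (hf : ∀ n, f n ∉ S' n) (hfr : ∃ᶠ n in atTop, f n ∉ S n) (m0 : ℕ) (T : Finset ℕ)
    (hT : 0 < lam.real (AT K f S' z m0 T)) (B : ℕ) :
    ∃ n, B ≤ n ∧ 0 < lam.real (AT K f S' z m0 (insert n T)) := by
  classical
  have hAc := isClosed_AT hK f S' z m0 T
  have hne : lam (AT K f S' z m0 T) ≠ 0 := by
    intro h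
    rw [measureReal_def, h] at hT
    simp at hT
  obtain ⟨N, F, hFm, hFinv, hAF, h78⟩ := hA hAc hne
  have hF0 : 0 < lam.real F := lt_of_lt_of_le hT (measureReal_mono hAF)
  obtain ⟨i, hi⟩ := he ⟨N, res N '' F⟩
  have hFe : FF (e i) = F := by rw [hi]; exact FF_code hFinv
  have hKF : AT K f S' z m0 T ⊆ K ∩ F := fun x hx => ⟨hx.1, hAF hx⟩
  have hadm : Adm K (FF (e i)) := by
    rw [hFe]
    exact ⟨hFm, hF0, h78.trans (measureReal_mono hKF)⟩
  obtain ⟨n, hnS, hn⟩ := (hfr.and_eventually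
    (eventually_ge_atTop (max (max N i) (max (max m0 B) (T.sup id + 1))))).exists
  have hnN : N ≤ n := le_trans (le_trans (le_max_left _ _) (le_max_left _ _)) hn
  have hni : i ≤ n := le_trans (le_trans (le_max_right _ _) (le_max_left _ _)) hn
  have hnm : m0 ≤ n :=
    le_trans (le_trans (le_trans (le_max_left _ _) (le_max_left _ _)) (le_max_right _ _)) hn
  have hnB : B ≤ n :=
    le_trans (le_trans (le_trans (le_max_right _ _) (le_max_left _ _)) (le_max_right _ _)) hn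
  have hnT : T.sup id + 1 ≤ n := le_trans (le_trans (le_max_right _ _) (le_max_right _ _)) hn
  have htn : ∀ t ∈ T, t ≠ n := by
    intro t ht htn
    have : t ≤ T.sup id := Finset.le_sup (f := id) ht
    omega
  refine ⟨n, hnB, ?_⟩
  have h24 : (2 : ℕ) ^ n ≤ 4 ^ n := Nat.pow_le_pow_left (by norm_num) n
  have hzn : z n < 4 ^ n := lt_of_lt_of_le (hz n) h24
  have key1 := hS n (f n) hnS i hni (by rw [hi]; exact hnN) hadm ⟨z n, hzn⟩
  rw [hFe] at key1
  set G : Set Om := {x | x (n, f n) = (⟨z n, hzn⟩ : Fin (4 ^ n))} with hG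
  set W : Set Om := F ∩ ((⋃ n' ∈ {n' | m0 ≤ n' ∧ n' ≠ n}, Bad f S' z n') ∪
    (⋃ k ∈ S' n, {x : Om | (x (n, k)).1 < 2 ^ n}) ∪
    ⋃ t ∈ T, {x : Om | (x (t, f t)).1 ≠ z t}) with hW
  have hWm : MeasurableSet W := by
    refine hFm.inter (IsOpen.measurableSet ?_)
    refine IsOpen.union (IsOpen.union ?_ ?_) ?_
    · exact isOpen_biUnion fun n' _ => isOpen_Bad f S' z n'
    · exact isOpen_biUnion fun k _ => (clopen_coord (n, k) fun v => v.1 < 2 ^ n).isOpen
    · exact isOpen_biUnion fun t _ => (clopen_coord (t, f t) fun v => v.1 ≠ z t).isOpen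
  have hWi : ∀ x y : Om, (∀ j, j ≠ (n, f n) → x j = y j) → x ∈ W → y ∈ W := by
    intro x y hxy hx
    have hne1 : ∀ (n' k : ℕ), n' ≠ n → x (n', k) = y (n', k) := fun n' k h =>
      hxy (n', k) fun h' => h (congrArg Prod.fst h')
    refine ⟨(hFinv x y fun j h1 _ => hxy j fun h' => ?_).1 hx.1, ?_⟩
    · rw [h'] at h1
      exact absurd h1 (not_lt.2 hnN)
    rcases hx.2 with (hx2 | hx2) | hx2
    · left; left
      simp only [mem_iUnion, mem_ofPred_eq] at hx2 ⊢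
      obtain ⟨n', hn', hb⟩ := hx2
      refine ⟨n', hn', ?_⟩
      rcases hb with hb | hb
      · left
        show (y (n', f n')).1 < 2 ^ n' ∧ (y (n', f n')).1 ≠ z n'
        rw [← hne1 n' (f n') hn'.2]; exact hb
      · right
        simp only [mem_iUnion, mem_ofPred_eq] at hb ⊢
        obtain ⟨k, hk, hb⟩ := hb
        exact ⟨k, hk, by rw [← hne1 n' k hn'.2]; exact hb⟩
    · left; right
      simp only [mem_iUnion, mem_ofPred_eq] at hx2 ⊢
      obtain ⟨k, hk, hb⟩ := hx2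
      refine ⟨k, hk, ?_⟩
      rw [← hxy (n, k) fun h' => hf n (by
        have : k = f n := congrArg Prod.snd h'
        rwa [← this])]
      exact hb
    · right
      simp only [mem_iUnion, mem_ofPred_eq] at hx2 ⊢
      obtain ⟨t, ht, hb⟩ := hx2
      exact ⟨t, ht, by rw [← hne1 t (f t) (htn t ht)]; exact hb⟩
  have hWinv : ∀ x y : Om, (∀ j, j ≠ (n, f n) → x j = y j) → (x ∈ W ↔ y ∈ W) := fun x y h =>
    ⟨hWi x y h, hWi y x fun j hj => (h j hj).symm⟩
  have hWF : lam.real W ≤ lam.real F / 8 := by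
    have hsub : W ⊆ F \ AT K f S' z m0 T := by
      intro x hx
      refine ⟨hx.1, fun hxA => ?_⟩
      rcases hx.2 with (hx2 | hx2) | hx2
      · simp only [mem_iUnion, mem_ofPred_eq] at hx2
        obtain ⟨n', hn', hb⟩ := hx2
        exact hxA.2.1 n' hn'.1 hb
      · exact hxA.2.1 n hnm (Or.inr hx2)
      · simp only [mem_iUnion, mem_ofPred_eq] at hx2
        obtain ⟨t, ht, hb⟩ := hx2
        exact hb (hxA.2.2 t ht)
    have h1 := measureReal_mono (μ := lam) hsub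
    rw [measureReal_sdiff hAF hAc.measurableSet] at h1
    linarith
  have key2 : lam.real (W ∩ G) = lam.real W / 4 ^ n := hL (n, f n) ⟨z n, hzn⟩ hWm hWinv
  have hcov : K ∩ F ∩ G ⊆ AT K f S' z m0 (insert n T) ∪ (W ∩ G) := by
    rintro x ⟨⟨hxK, hxF⟩, hxG⟩
    have hxG' : (x (n, f n)).1 = z n := by
      have : x (n, f n) = (⟨z n, hzn⟩ : Fin (4 ^ n)) := hxG
      rw [this]
    by_cases hxW : x ∈ W
    · exact Or.inr ⟨hxW, hxG⟩
    · left
      refine ⟨hxK, fun n' hn' hb => hxW ⟨hxF, ?_⟩, fun t ht => ?_⟩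
      · by_cases hnn : n' = n
        · subst hnn
          rcases hb with hb | hb
          · exact absurd hxG' hb.2
          · exact Or.inl (Or.inr hb)
        · left; left
          simp only [mem_iUnion, mem_ofPred_eq]
          exact ⟨n', ⟨hn', hnn⟩, hb⟩
      · rcases Finset.mem_insert.1 ht with rfl | ht
        · exact hxG'
        · by_contra hc
          refine hxW ⟨hxF, Or.inr ?_⟩
          simp only [mem_iUnion, mem_ofPred_eq]
          exact ⟨t, ht, hc⟩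
  have h3 : lam.real (K ∩ F ∩ G) ≤ lam.real (AT K f S' z m0 (insert n T)) + lam.real (W ∩ G) :=
    (measureReal_mono hcov).trans (measureReal_union_le _ _)
  rw [key2] at h3
  have h4 : lam.real W / 4 ^ n ≤ lam.real F / 8 / 4 ^ n :=
    div_le_div_of_nonneg_right hWF (by positivity)
  have h5 : lam.real F / 8 / 4 ^ n < lam.real F / 4 ^ n / 3 := by
    have h6 : 0 < lam.real F / 4 ^ n := by positivity
    have h7 : lam.real F / 8 / 4 ^ n = lam.real F / 4 ^ n / 8 := by ring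
    rw [h7]; linarith
  linarith

/-- The fusion lemma. -/
theorem fusion (hL : LamCoord) (hB : SlalomBound) (hA : Approx) {M : Set Om} (hM : lam M = 0) :
    ∃ S : ℕ → Finset ℕ, (∀ n, (S n).card ≤ (n + 1) * 16 ^ n) ∧
      ∀ (f : ℕ → ℕ) (S' : ℕ → Finset ℕ) (z : ℕ → ℕ), (∀ n, z n < 2 ^ n) →
        (∀ n, (S' n).card ≤ n) → (∀ n, f n ∉ S' n) → (∃ᶠ n in atTop, f n ∉ S n) →
          ∃ x ∈ Dset f S' z, x ∉ M := by
  classical
  -- the compact set
  obtain ⟨M', hMM', hM'm, hM'0⟩ := exists_measurable_superset_of_null hM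
  have hM'c : lam M'ᶜ = 1 := by
    rw [prob_compl_eq_one_iff hM'm]; exact hM'0
  obtain ⟨K, hKM', hKc, hK0⟩ := hM'm.compl.exists_lt_isCompact (μ := lam) (r := 0)
    (by rw [hM'c]; exact zero_lt_one)
  have hKcl : IsClosed K := hKc.isClosed
  have hKM : ∀ x ∈ K, x ∉ M := fun x hx hxM => hKM' hx (hMM' hxM)
  -- the enumeration
  obtain ⟨e, he⟩ := exists_surjective_nat (Σ N, Set (Y N))
  -- the slalom
  have hex : ∀ (n j : ℕ) (v : Fin (4 ^ n)), ∃ s : Finset ℕ, s.card ≤ 4 ^ n ∧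
      (Adm K (FF (e j)) → (e j).1 ≤ n → ∀ k,
        lam.real (K ∩ FF (e j) ∩ {x | x (n, k) = v}) ≤ lam.real (FF (e j)) / 4 ^ n / 3 →
          k ∈ s) := by
    intro n j v
    by_cases h : Adm K (FF (e j)) ∧ (e j).1 ≤ n
    · obtain ⟨⟨h1, h2, h3⟩, h4⟩ := h
      have hinv : ∀ x y : Om, (∀ j' : ℕ × ℕ, j'.1 ≠ n → x j' = y j') →
          (x ∈ FF (e j) ↔ y ∈ FF (e j)) := fun x y hxy =>
        FF_inv (e j) x y fun j' hj' => hxy j' (by omega)
      have hb := hB hKcl.measurableSet h1 n v hinv h2 h3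
      set Tt : Set ℕ := {k | lam.real (K ∩ FF (e j) ∩ {x | x (n, k) = v}) ≤
        lam.real (FF (e j)) / 4 ^ n / 3} with hTt
      have hfin : Tt.Finite := by
        by_contra hinf
        obtain ⟨t, ht, htc⟩ := Set.Infinite.exists_subset_card_eq hinf (4 ^ n + 1)
        have := hb t fun k hk => ht hk
        omega
      refine ⟨hfin.toFinset, hb _ fun k hk => ?_, fun _ _ k hk => ?_⟩
      · exact (hfin.mem_toFinset.1 hk : k ∈ Tt)
      · exact hfin.mem_toFinset.2 hk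
    · exact ⟨∅, by simp, fun h1 h2 => absurd ⟨h1, h2⟩ h⟩
  choose s hs1 hs2 using hex
  set S : ℕ → Finset ℕ := fun n =>
    (Finset.range (n + 1)).biUnion fun j => Finset.univ.biUnion fun v => s n j v with hSdef
  have hS : ∀ n k, k ∉ S n → ∀ j ≤ n, (e j).1 ≤ n → Adm K (FF (e j)) → ∀ v : Fin (4 ^ n),
      lam.real (FF (e j)) / 4 ^ n / 3 < lam.real (K ∩ FF (e j) ∩ {x | x (n, k) = v}) := by
    intro n k hk j hj hjn hadm v
    by_contra hc
    apply hk
    rw [hSdef]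
    simp only [Finset.mem_biUnion, Finset.mem_range, Finset.mem_univ, true_and]
    exact ⟨j, by omega, v, hs2 n j v hadm hjn k (not_lt.1 hc)⟩
  refine ⟨S, fun n => ?_, ?_⟩
  · have h1 : ∀ j ∈ Finset.range (n + 1),
        (Finset.univ.biUnion fun v => s n j v).card ≤ 4 ^ n * 4 ^ n := by
      intro j _
      have := Finset.card_biUnion_le_card_mul (Finset.univ : Finset (Fin (4 ^ n)))
        (fun v => s n j v) (4 ^ n) fun v _ => hs1 n j v
      rwa [Finset.card_univ, Fintype.card_fin] at this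
    have h2 := Finset.card_biUnion_le_card_mul (Finset.range (n + 1))
      (fun j => Finset.univ.biUnion fun v => s n j v) (4 ^ n * 4 ^ n) h1
    rw [Finset.card_range] at h2
    have h3 : (16 : ℕ) ^ n = 4 ^ n * 4 ^ n := by rw [← mul_pow]; norm_num
    rw [h3]; exact h2
  intro f S' z hz hS' hf hfr
  -- the choice of m0
  have hsum : Summable fun n : ℕ => ((n : ℝ) + 1) * (1 / 2) ^ n := by
    have h1 : Summable fun n : ℕ => (n : ℝ) ^ 1 * (1 / 2 : ℝ) ^ n :=
      summable_pow_mul_geometric_of_norm_lt_one 1 (by norm_num)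
    have h2 : Summable fun n : ℕ => (n : ℝ) ^ 0 * (1 / 2 : ℝ) ^ n :=
      summable_pow_mul_geometric_of_norm_lt_one 0 (by norm_num)
    refine (h1.add h2).congr fun n => ?_
    ring
  have htop : ∑' n : ℕ, ENNReal.ofReal (((n : ℝ) + 1) * (1 / 2) ^ n) ≠ ⊤ := by
    rw [← ENNReal.ofReal_tsum_of_nonneg (fun n => by positivity) hsum]
    exact ENNReal.ofReal_ne_top
  obtain ⟨m0, hm0⟩ := ((tendsto_order.1 (ENNReal.tendsto_sum_nat_add _ htop)).2 _ hK0).exists
  have hbad : lam (⋃ n, Bad f S' z (n + m0)) < lam K := by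
    refine lt_of_le_of_lt ((measure_iUnion_le _).trans (ENNReal.tsum_le_tsum fun n => ?_)) hm0
    have h1 := lam_Bad hL f S' z hS' (n + m0)
    have h2 : lam (Bad f S' z (n + m0)) = ENNReal.ofReal (lam.real (Bad f S' z (n + m0))) :=
      (ofReal_measureReal).symm
    rw [h2]
    exact ENNReal.ofReal_le_ofReal h1
  have hA0 : 0 < lam.real (AT K f S' z m0 ∅) := by
    have hsub : K \ (⋃ n, Bad f S' z (n + m0)) ⊆ AT K f S' z m0 ∅ := by
      rintro x ⟨hxK, hxB⟩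
      refine ⟨hxK, fun n hn hb => hxB ?_, fun t ht => absurd ht (Finset.notMem_empty t)⟩
      rw [mem_iUnion]
      exact ⟨n - m0, by rwa [Nat.sub_add_cancel hn]⟩
    have h1 : 0 < lam (K \ (⋃ n, Bad f S' z (n + m0))) := by
      refine lt_of_lt_of_le ?_ (le_measure_sdiff)
      exact tsub_pos_of_lt hbad
    have h2 : 0 < lam (AT K f S' z m0 ∅) := lt_of_lt_of_le h1 (measure_mono hsub)
    exact ENNReal.toReal_pos h2.ne' (measure_ne_top _ _)
  -- the recursion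
  have hst := step hL hA hKcl e he S hS f S' z hz hf hfr m0
  choose nx hnx1 hnx2 using hst
  let g : ℕ → {T : Finset ℕ // 0 < lam.real (AT K f S' z m0 T)} := fun j =>
    Nat.rec ⟨∅, hA0⟩ (fun j T => ⟨insert (nx T.1 T.2 j) T.1, hnx2 T.1 T.2 j⟩) j
  have hg : ∀ j, (g (j + 1)).1 = insert (nx (g j).1 (g j).2 j) (g j).1 := fun j => rfl
  have hne : (⋂ j, AT K f S' z m0 (g j).1).Nonempty := by
    refine IsCompact.nonempty_iInter_of_sequence_nonempty_isCompact_isClosed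
      (fun j => AT K f S' z m0 (g j).1) (fun j => ?_) (fun j => ?_) ?_ (fun j => ?_)
    · intro x hx
      refine ⟨hx.1, hx.2.1, fun t ht => hx.2.2 t ?_⟩
      rw [hg j]
      exact Finset.mem_insert_of_mem ht
    · by_contra hc
      have h1 := (g j).2
      rw [Set.not_nonempty_iff_eq_empty.1 hc] at h1
      simp at h1
    · exact (isClosed_AT hKcl f S' z m0 _).isCompact
    · exact isClosed_AT hKcl f S' z m0 _
  obtain ⟨x, hx⟩ := hne
  rw [mem_iInter] at hx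
  refine ⟨x, ⟨?_, ?_, ?_⟩, hKM x (hx 0).1⟩
  · rw [frequently_atTop]
    intro b
    refine ⟨nx (g b).1 (g b).2 b, hnx1 _ _ b, ?_⟩
    refine (hx (b + 1)).2.2 _ ?_
    rw [hg b]
    exact Finset.mem_insert_self _ _
  · filter_upwards [eventually_ge_atTop m0] with n hn hlt
    by_contra hc
    exact (hx 0).2.1 n hn (Or.inl ⟨hlt, hc⟩)
  · filter_upwards [eventually_ge_atTop m0] with n hn k hk
    by_contra hc
    refine (hx 0).2.1 n hn (Or.inr ?_)
    simp only [mem_iUnion, mem_ofPred_eq]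
    exact ⟨k, hk, not_le.1 hc⟩

end Pool.Agent.R577.OM
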